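import Pool.Agent.Q127.OD.Fourier

set_option autoImplicit false

/-! Subset sums and the arithmetic criterion. -/

namespace Pool.Agent.Q127.OD

open Finset

/-- Sums of `l`-subsets of `{0, …, M-1}` fill an interval. -/
theorem cov (M : ℕ) : ∀ l s : ℕ, l ≤ M → s ≤ l * (M - l) →
    ∃ U ∈ powersetCard l (range M), ∑ i ∈ U, i = (∑ i ∈ range l, i) + s := by
  induction M with
  | zero =>
    intro l s hl hs
    obtain rfl : l = 0 := by omega
    obtain rfl : s = 0 := by simpa using hs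
    exact ⟨∅, by simp, by simp⟩
  | succ M ih =>
    intro l s hl hs
    rcases Nat.eq_zero_or_pos l with h0 | h0
    · subst h0
      obtain rfl : s = 0 := by simpa using hs
      exact ⟨∅, by simp, by simp⟩
    by_cases hc : l ≤ M ∧ s ≤ l * (M - l)
    · obtain ⟨U, hU, hs⟩ := ih l s hc.1 hc.2
      refine ⟨U, ?_, hs⟩
      rw [mem_powersetCard] at hU ⊢
      exact ⟨hU.1.trans (range_subset_range.2 (by omega)), hU.2⟩
    · obtain ⟨l, rfl⟩ : ∃ l', l = l' + 1 := ⟨l - 1, by omega⟩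
      have hM : M + 1 - (l + 1) = M - l := by omega
      rw [hM] at hs
      have h1 : M - l ≤ s := by
        by_contra hlt
        push Not at hlt hc
        have h2 : l + 1 ≤ M := by omega
        have h3 := hc h2
        have h4 : M - l = (M - (l + 1)) + 1 := by omega
        have h5 : (l + 1) * (M - (l + 1)) ≥ M - (l + 1) := Nat.le_mul_of_pos_left _ (by omega)
        omega
      have h2 : s - (M - l) ≤ l * (M - l) := by
        have : (l + 1) * (M - l) = l * (M - l) + (M - l) := by ring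
        omega
      obtain ⟨U, hU, hs'⟩ := ih l (s - (M - l)) (by omega) h2
      rw [mem_powersetCard] at hU
      have hM' : M ∉ U := fun h => by simpa using hU.1 h
      refine ⟨insert M U, ?_, ?_⟩
      · rw [mem_powersetCard]
        refine ⟨?_, ?_⟩
        · intro i hi
          rcases mem_insert.1 hi with rfl | hi
          · simp
          · have := mem_range.1 (hU.1 hi)
            rw [mem_range]; omega
        · rw [card_insert_of_notMem hM', hU.2]
      · rw [sum_insert hM', hs', sum_range_succ]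
        omega

/-- Sums of `l`-subsets of `{1, …, m-1}` fill an interval. -/
theorem covIco {m l s : ℕ} (hm : 0 < m) (hl : l ≤ m - 1) (hs : s ≤ l * (m - 1 - l)) :
    ∃ U ∈ powersetCard l (Ico 1 m), ∑ i ∈ U, i = (∑ i ∈ range l, i) + l + s := by
  obtain ⟨U, hU, hs⟩ := cov (m - 1) l s hl hs
  rw [mem_powersetCard] at hU
  refine ⟨U.map (addRightEmbedding 1), ?_, ?_⟩
  · rw [mem_powersetCard, card_map]
    refine ⟨?_, hU.2⟩
    intro i hi
    obtain ⟨j, hj, rfl⟩ := mem_map.1 hi
    have := mem_range.1 (hU.1 hj)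
    simp only [addRightEmbedding_apply, mem_Ico]
    omega
  · rw [sum_map]
    simp only [addRightEmbedding_apply]
    rw [sum_add_distrib, hs]
    simp [hU.2]
    ring

/-- All residues are hit. -/
theorem cov_mod {m l : ℕ} (h2 : 2 ≤ l) (h3 : l + 3 ≤ m) (τ : ℕ) :
    ∃ U ∈ powersetCard l (Ico 1 m), (∑ i ∈ U, i) ≡ τ [MOD m] := by
  have hm : 0 < m := by omega
  set b := (∑ i ∈ range l, i) + l with hb
  -- s ≡ τ - b mod m with s < m
  obtain ⟨s, hs, hmod⟩ : ∃ s, s < m ∧ b + s ≡ τ [MOD m] := by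
    refine ⟨(τ + (m - 1) * b) % m, Nat.mod_lt _ hm, ?_⟩
    have h1 : b + (τ + (m - 1) * b) % m ≡ b + (τ + (m - 1) * b) [MOD m] :=
      Nat.ModEq.add_left _ (Nat.mod_modEq _ _)
    refine h1.trans ?_
    obtain ⟨m', rfl⟩ : ∃ m', m = m' + 1 := ⟨m - 1, by omega⟩
    have : b + (τ + (m' + 1 - 1) * b) = τ + (m' + 1) * b := by
      rw [Nat.add_sub_cancel]; ring
    rw [this]
    exact Nat.ModEq.symm (by simp [Nat.ModEq])
  have hle : s ≤ l * (m - 1 - l) := by
    obtain ⟨a, rfl⟩ : ∃ a, l = a + 2 := ⟨l - 2, by omega⟩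
    obtain ⟨c, rfl⟩ : ∃ c, m = a + 2 + 3 + c := ⟨m - (a + 2 + 3), by omega⟩
    have : a + 2 + 3 + c - 1 - (a + 2) = c + 2 := by omega
    rw [this]
    nlinarith [Nat.zero_le (a * c)]
  obtain ⟨U, hU, hsum⟩ := covIco hm (by omega) hle
  exact ⟨U, hU, by rw [hsum]; exact hmod⟩

theorem exists_y {n k s : ℕ} (hn : 0 < n) :
    (∃ y < n, n ∣ y * k + s) ↔ Nat.gcd k n ∣ s := by
  constructor
  · rintro ⟨y, _, h⟩
    have h1 : Nat.gcd k n ∣ y * k + s := (Nat.gcd_dvd_right k n).trans h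
    exact (Nat.dvd_add_right (Dvd.dvd.mul_left (Nat.gcd_dvd_left k n) y)).1 h1
  · rintro ⟨q, hq⟩
    have hg := Nat.gcd_eq_gcd_ab k n
    set a := Nat.gcdA k n
    set b := Nat.gcdB k n
    have hn' : (0 : ℤ) < n := by exact_mod_cast hn
    refine ⟨((-a * q) % n).toNat, ?_, ?_⟩
    · have h1 := Int.emod_lt_of_pos (-a * q) hn'
      have h2 := Int.emod_nonneg (-a * q) hn'.ne'
      omega
    · have h2 := Int.emod_nonneg (-a * q) hn'.ne'
      zify
      rw [Int.toNat_of_nonneg h2, hq]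
      push_cast
      rw [hg]
      have h3 := Int.emod_add_mul_ediv (-a * q) n
      refine ⟨b * q - ((-a * q) / n) * k, ?_⟩
      have h4 : (-a * q) % n = -a * q - n * ((-a * q) / n) := by linarith
      rw [h4]
      ring

theorem noU_iff {n k v D : ℕ} (hn : 0 < n) :
    NoU n k v D ↔ ∀ U ∈ powersetCard ((k - 1) / D) (Ico 1 (n / D)),
      ¬ Nat.gcd k n ∣ v + D * ∑ i ∈ U, i := by
  unfold NoU
  refine forall₂_congr fun U _ => ?_
  rw [← exists_y (n := n) (k := k) hn]
  push Not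
  rfl

/-- `∑_{i < P m} i ≡ P ∑_{i < m} i (mod m)`. -/
theorem sigma_mod (m P : ℕ) : ∃ q, ∑ i ∈ range (m * P), i = P * (∑ i ∈ range m, i) + m * q := by
  induction P with
  | zero => exact ⟨0, by simp⟩
  | succ P ih =>
    obtain ⟨q, hq⟩ := ih
    refine ⟨q + m * P, ?_⟩
    rw [Nat.mul_succ, sum_range_add, hq, sum_add_distrib]
    simp
    ring

theorem sigma_Ico {m : ℕ} (hm : 0 < m) : ∑ i ∈ Ico 1 m, i = ∑ i ∈ range m, i := by
  rw [range_eq_Ico, sum_eq_sum_Ico_succ_bot hm]
  simp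

end Pool.Agent.Q127.OD
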