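import Pool.Agent.Q127.OD.Cover

set_option autoImplicit false

/-! The arithmetic criterion. -/

namespace Pool.Agent.Q127.OD

open Finset

/-- The four alternatives at a prime `p` (with `c = v_p(k)`, `P = p^(c+1)`, `h = gcd(k,n)/p^c`). -/
def Alt (n k v p : ℕ) : Prop :=
  let c := k.factorization p
  let P := p ^ (c + 1)
  let h := Nat.gcd k n / p ^ c
  let σ := ∑ i ∈ range n, i
  (k < P ∧ ¬ h ∣ v) ∨ (n - k < P ∧ ¬ h ∣ v + σ) ∨
    (n = P * h ∧ P < k ∧ k < 2 * P ∧ h ∣ v) ∨
    (n = P * h ∧ P < n - k ∧ n - k < 2 * P ∧ h ∣ v + σ)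

theorem div_pred {k D : ℕ} (hk : 0 < k) (h : ¬ D ∣ k) : (k - 1) / D = k / D := by
  obtain ⟨j, rfl⟩ : ∃ j, k = j + 1 := ⟨k - 1, by omega⟩
  rw [Nat.succ_div, if_neg h]
  rfl

section
variable {n k v p : ℕ}

theorem basic (hk : 0 < k) (hp : p.Prime) (hP : p ^ (k.factorization p + 1) ∣ n) :
    ∃ h, Nat.gcd k n = p ^ (k.factorization p) * h ∧ Nat.Coprime p h ∧ 0 < h ∧
      Nat.gcd k n / p ^ (k.factorization p) = h ∧ h ∣ k ∧ h ∣ n ∧
      ¬ p ^ (k.factorization p + 1) ∣ k := by
  have hc : p ^ (k.factorization p) ∣ k := Nat.ordProj_dvd k p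
  have hnk : ¬ p ^ (k.factorization p + 1) ∣ k := by
    rw [hp.pow_dvd_iff_le_factorization hk.ne']; omega
  have hcn : p ^ (k.factorization p) ∣ n := (pow_dvd_pow p (by omega)).trans hP
  obtain ⟨h, hh⟩ := Nat.dvd_gcd hc hcn
  have hpos : 0 < Nat.gcd k n := Nat.gcd_pos_of_pos_left _ hk
  have hh0 : 0 < h := by
    rcases Nat.eq_zero_or_pos h with h0 | h0
    · subst h0; omega
    · exact h0
  have hhg : h ∣ Nat.gcd k n := by rw [hh]; exact dvd_mul_left _ _
  refine ⟨h, hh, ?_, hh0, ?_, hhg.trans (Nat.gcd_dvd_left _ _), hhg.trans (Nat.gcd_dvd_right _ _),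
    hnk⟩
  · rw [Nat.Prime.coprime_iff_not_dvd hp]
    rintro ⟨q, hq⟩
    apply hnk
    refine dvd_trans ?_ (Nat.gcd_dvd_left k n)
    rw [hh, hq]
    exact ⟨q, by ring⟩
  · rw [hh, Nat.mul_div_cancel_left _ (pow_pos hp.pos _)]

/-- solving `D u ≡ τ (mod h)`. -/
theorem solve {D h : ℕ} (hh : 0 < h) (hcop : Nat.Coprime D h) (v : ℕ) :
    ∃ u, u < h ∧ h ∣ v + D * u := by
  have h1 : Nat.gcd D h ∣ v := by rw [hcop.gcd_eq_one]; exact one_dvd _
  obtain ⟨u, hu, hd⟩ := (exists_y (n := h) (k := D) (s := v) hh).2 h1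
  exact ⟨u, hu, by rwa [add_comm, mul_comm]⟩

theorem alt_of_noU (hk : 0 < k) (hkn : k < n) (hp : p.Prime)
    (hP : p ^ (k.factorization p + 1) ∣ n) (hv : p ^ (k.factorization p) ∣ v)
    (hno : NoU n k v (p ^ (k.factorization p + 1))) : Alt n k v p := by
  obtain ⟨h, hg, hcop, hh0, hdiv, hhk, hhn, hPk⟩ := basic hk hp hP
  have hn : 0 < n := by omega
  unfold Alt
  simp only
  rw [hdiv]
  rw [noU_iff hn] at hno
  set c := k.factorization p with hc
  set P := p ^ (c + 1) with hPdef
  set σ := ∑ i ∈ range n, i with hσ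
  have hPpos : 0 < P := pow_pos hp.pos _
  obtain ⟨m, hm⟩ := hP
  have hm0 : 0 < m := by
    rcases Nat.eq_zero_or_pos m with h0 | h0
    · subst h0; omega
    · exact h0
  have hnm : n / P = m := by rw [hm, Nat.mul_div_cancel_left _ hPpos]
  rw [hnm, div_pred hk hPk] at hno
  have hcopP : Nat.Coprime P h := Nat.Coprime.pow_left _ hcop
  have hhm : h ∣ m := by
    have : h ∣ P * m := by rw [← hm]; exact hhn
    exact hcopP.symm.dvd_of_dvd_mul_left this
  have hcP : p ^ c ∣ P := pow_dvd_pow p (by omega)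
  -- reduce divisibility by g to divisibility by h
  have hred : ∀ s, h ∣ v + P * s → Nat.gcd k n ∣ v + P * s := by
    intro s hs
    rw [hg]
    refine Nat.Coprime.mul_dvd_of_dvd_of_dvd (Nat.Coprime.pow_left _ hcop) ?_ hs
    exact dvd_add hv (Dvd.dvd.mul_right hcP s)
  have hno' : ∀ U ∈ powersetCard (k / P) (Ico 1 m), ¬ h ∣ v + P * ∑ i ∈ U, i :=
    fun U hU hd => hno U hU (hred _ hd)
  have hlm : k / P < m := by
    rw [Nat.div_lt_iff_lt_mul hPpos, mul_comm, ← hm]; exact hkn
  have hkdm := Nat.div_add_mod k P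
  have hkmod : k % P < P := Nat.mod_lt _ hPpos
  have hkmod0 : 0 < k % P := Nat.pos_of_ne_zero fun h0 => hPk (Nat.dvd_of_mod_eq_zero h0)
  have hσm : ∃ q, σ = P * (∑ i ∈ Ico 1 m, i) + m * q := by
    rw [hσ, sigma_Ico hm0, hm, mul_comm]
    exact sigma_mod m P
  obtain ⟨q, hq⟩ := hσm
  have hσh : ∀ s, h ∣ v + σ + s ↔ h ∣ v + P * (∑ i ∈ Ico 1 m, i) + s := by
    intro s
    have h1 : v + σ + s = (v + P * (∑ i ∈ Ico 1 m, i) + s) + m * q := by rw [hq]; ring
    rw [h1]
    exact Nat.dvd_add_left (Dvd.dvd.mul_right hhm q)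
  rcases Nat.lt_or_ge (k / P) 1 with hl | hl
  · -- l = 0
    left
    have hl0 : k / P = 0 := Nat.lt_one_iff.1 hl
    refine ⟨(Nat.div_eq_zero_iff.1 hl0).resolve_left hPpos.ne', ?_⟩
    have := hno' ∅ (by rw [hl0]; simp)
    simpa using this
  rcases Nat.lt_or_ge (k / P) (m - 1) with hl1 | hl1
  swap
  · -- l = m - 1
    right; left
    have hl2 : k / P = m - 1 := by omega
    refine ⟨?_, ?_⟩
    · obtain ⟨m', rfl⟩ : ∃ m', m = m' + 1 := ⟨m - 1, by omega⟩
      rw [hl2] at hkdm
      have : P * (m' + 1) = P * (m' + 1 - 1) + P := by rw [Nat.add_sub_cancel]; ring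
      omega
    · have h1 := hno' (Ico 1 m) (by rw [mem_powersetCard]; exact ⟨subset_rfl, by simp; omega⟩)
      intro h2
      exact h1 (by simpa using (hσh 0).1 (by simpa using h2))
  have hm3 : 3 ≤ m := by omega
  rcases Nat.eq_or_lt_of_le hl with hl2 | hl2
  · -- l = 1
    right; right; left
    have hsing : ∀ u, 1 ≤ u → u < m → ¬ h ∣ v + P * u := by
      intro u h1 h2 h3
      refine hno' {u} (by rw [mem_powersetCard]; simp; omega) (by simpa using h3)
    have hhm' : h = m := by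
      by_contra hne
      have hlt : h < m := lt_of_le_of_ne (Nat.le_of_dvd hm0 hhm) hne
      obtain ⟨u, hu, hd⟩ := solve hh0 hcopP v
      rcases Nat.eq_zero_or_pos u with h0 | h0
      · subst h0
        refine hsing h (by omega) hlt ?_
        rw [mul_zero, add_zero] at hd
        exact dvd_add hd (dvd_mul_left _ _)
      · exact hsing u h0 (by omega) hd
    refine ⟨by rw [hhm']; exact hm, ?_, ?_, ?_⟩
    · rw [← hl2] at hkdm; omega
    · rw [← hl2] at hkdm; omega
    · obtain ⟨u, hu, hd⟩ := solve hh0 hcopP v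
      rcases Nat.eq_zero_or_pos u with h0 | h0
      · subst h0
        simpa using hd
      · exact absurd hd (hsing u h0 (by omega))
  rcases Nat.lt_or_ge (k / P + 2) m with hl3 | hl3
  · -- 2 ≤ l ≤ m - 3
    exfalso
    obtain ⟨τ, _, hτ⟩ := solve hh0 hcopP v
    obtain ⟨U, hU, hmod⟩ := cov_mod (m := m) (l := k / P) hl2 (by omega) τ
    refine hno' U hU ?_
    have h1 : v + P * (∑ i ∈ U, i) ≡ v + P * τ [MOD h] :=
      Nat.ModEq.add_left _ (Nat.ModEq.mul_left _ (hmod.of_dvd hhm))
    exact (h1.dvd_iff dvd_rfl).2 hτ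
  · -- l = m - 2
    right; right; right
    have hl4 : k / P + 2 = m := by omega
    have hsing : ∀ u, 1 ≤ u → u < m → ¬ h ∣ v + P * (∑ i ∈ Ico 1 m, i) + P * (h - 1) * u := by
      intro u h1 h2 h3
      have hu : u ∈ Ico 1 m := by rw [mem_Ico]; omega
      refine hno' ((Ico 1 m).erase u) ?_ ?_
      · rw [mem_powersetCard]
        refine ⟨erase_subset _ _, ?_⟩
        rw [card_erase_of_mem hu]
        simp; omega
      · have h4 : (∑ i ∈ Ico 1 m, i) = u + ∑ i ∈ (Ico 1 m).erase u, i :=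
          (add_sum_erase _ _ hu).symm
        rw [h4] at h3
        have h5 : v + P * (u + ∑ i ∈ (Ico 1 m).erase u, i) + P * (h - 1) * u
            = (v + P * ∑ i ∈ (Ico 1 m).erase u, i) + h * (P * u) := by
          obtain ⟨h', rfl⟩ : ∃ h', h = h' + 1 := ⟨h - 1, by omega⟩
          rw [Nat.add_sub_cancel]; ring
        rw [h5] at h3
        exact (Nat.dvd_add_left (dvd_mul_right _ _)).1 h3
    have hcop' : Nat.Coprime (P * (h - 1)) h := by
      refine Nat.Coprime.mul_left hcopP ?_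
      obtain ⟨h', rfl⟩ : ∃ h', h = h' + 1 := ⟨h - 1, by omega⟩
      rw [Nat.add_sub_cancel]
      exact (Nat.coprime_self_add_right).2 (Nat.coprime_one_right _)
    have hhm' : h = m := by
      by_contra hne
      have hlt : h < m := lt_of_le_of_ne (Nat.le_of_dvd hm0 hhm) hne
      obtain ⟨u, hu, hd⟩ := solve hh0 hcop' (v + P * (∑ i ∈ Ico 1 m, i))
      rcases Nat.eq_zero_or_pos u with h0 | h0
      · subst h0
        refine hsing h (by omega) hlt ?_
        rw [mul_zero, add_zero] at hd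
        exact dvd_add hd (dvd_mul_left _ _)
      · exact hsing u h0 (by omega) hd
    have hnk : n - k = P * 2 - k % P := by
      have h1 : P * m = P * (k / P) + P * 2 := by rw [← hl4]; ring
      omega
    refine ⟨by rw [hhm']; exact hm, ?_, ?_, ?_⟩
    · omega
    · omega
    · obtain ⟨u, hu, hd⟩ := solve hh0 hcop' (v + P * (∑ i ∈ Ico 1 m, i))
      rcases Nat.eq_zero_or_pos u with h0 | h0
      · subst h0
        simpa using (hσh 0).2 (by simpa using hd)
      · exact absurd hd (hsing u h0 (by omega))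

theorem noU_of_alt (hk : 0 < k) (hkn : k < n) (hp : p.Prime) {e : ℕ} (he : p ^ e ∣ n)
    (hek : ¬ p ^ e ∣ k) (halt : p ^ (k.factorization p) ∣ v → Alt n k v p) :
    NoU n k v (p ^ e) := by
  have hn : 0 < n := by omega
  have hce : k.factorization p + 1 ≤ e := by
    by_contra h
    exact hek ((hp.pow_dvd_iff_le_factorization hk.ne').2 (by omega))
  have hP : p ^ (k.factorization p + 1) ∣ n := (pow_dvd_pow p hce).trans he
  obtain ⟨h, hg, hcop, hh0, hdiv, hhk, hhn, hPk⟩ := basic hk hp hP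
  rw [noU_iff hn]
  intro U hU hdvd
  -- p^c divides v
  have hcv : p ^ (k.factorization p) ∣ v := by
    have h1 : p ^ (k.factorization p) ∣ v + p ^ e * ∑ i ∈ U, i := by
      refine dvd_trans ?_ hdvd
      rw [hg]; exact dvd_mul_right _ _
    exact (Nat.dvd_add_left (Dvd.dvd.mul_right (pow_dvd_pow p (by omega)) _)).1 h1
  have halt' := halt hcv
  unfold Alt at halt'
  simp only at halt'
  rw [hdiv] at halt'
  have hhd : h ∣ v + p ^ e * ∑ i ∈ U, i := by
    refine dvd_trans ?_ hdvd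
    rw [hg]; exact dvd_mul_left _ _
  set c := k.factorization p with hc
  set P := p ^ (c + 1) with hPdef
  set D := p ^ e with hDdef
  set σ := ∑ i ∈ range n, i with hσ
  have hPD : P ≤ D := Nat.pow_le_pow_right hp.pos hce
  have hPpos : 0 < P := pow_pos hp.pos _
  have hDpos : 0 < D := pow_pos hp.pos _
  obtain ⟨m, hm⟩ := he
  have hm0 : 0 < m := by
    rcases Nat.eq_zero_or_pos m with h0 | h0
    · subst h0; omega
    · exact h0
  have hnm : n / D = m := by rw [hm, Nat.mul_div_cancel_left _ hDpos]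
  rw [hnm, div_pred hk hek, mem_powersetCard] at hU
  obtain ⟨hUs, hUc⟩ := hU
  have hcopD : Nat.Coprime D h := Nat.Coprime.pow_left _ hcop
  have hhm : h ∣ m := by
    have : h ∣ D * m := by rw [← hm]; exact hhn
    exact hcopD.symm.dvd_of_dvd_mul_left this
  have hkdm := Nat.div_add_mod k D
  have hkmod : k % D < D := Nat.mod_lt _ hDpos
  have hkmod0 : 0 < k % D := Nat.pos_of_ne_zero fun h0 => hek (Nat.dvd_of_mod_eq_zero h0)
  have hσm : ∃ q, σ = D * (∑ i ∈ Ico 1 m, i) + m * q := by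
    rw [hσ, sigma_Ico hm0, hm, mul_comm]
    exact sigma_mod m D
  obtain ⟨q, hq⟩ := hσm
  have hσh : h ∣ v + σ ↔ h ∣ v + D * (∑ i ∈ Ico 1 m, i) := by
    have h1 : v + σ = (v + D * (∑ i ∈ Ico 1 m, i)) + m * q := by rw [hq]; ring
    rw [h1]
    exact Nat.dvd_add_left (Dvd.dvd.mul_right hhm q)
  rcases halt' with ⟨h1, h2⟩ | ⟨h1, h2⟩ | ⟨h1, h2, h3, h4⟩ | ⟨h1, h2, h3, h4⟩
  · -- A
    have h3 : k / D = 0 := Nat.div_eq_of_lt (by omega)
    rw [h3, card_eq_zero] at hUc
    subst hUc
    exact h2 (by simpa using hhd)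
  · -- B
    have h3 : k / D = m - 1 := by
      obtain ⟨m', rfl⟩ : ∃ m', m = m' + 1 := ⟨m - 1, by omega⟩
      have h5 : n = D * m' + D := by rw [hm]; ring
      rw [Nat.div_eq_iff (by omega)]
      rw [Nat.add_sub_cancel]
      have : m' * D = D * m' := mul_comm _ _
      constructor
      · omega
      · have : (m' + 1) * D = D * m' + D := by ring
        omega
    have h5 : U = Ico 1 m := by
      apply eq_of_subset_of_card_le hUs
      rw [hUc, h3]; simp
    subst h5
    exact h2 (hσh.2 hhd)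
  · -- C
    have he1 : e = c + 1 := by
      by_contra hne
      have h5 : p ^ (c + 2) ∣ P * h := by
        rw [← h1, hm]
        exact Dvd.dvd.mul_right (pow_dvd_pow p (by omega)) m
      have h6 : P * p ∣ P * h := by rw [hPdef, ← pow_succ]; exact h5
      have h7 := Nat.dvd_of_mul_dvd_mul_left hPpos h6
      exact ((Nat.Prime.coprime_iff_not_dvd hp).1 hcop) h7
    have hDP : D = P := by rw [hDdef, he1]
    have hmh : m = h := by
      have : P * m = P * h := by rw [← h1, hm, hDP]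
      exact Nat.eq_of_mul_eq_mul_left hPpos this
    have h5 : k / D = 1 := by
      rw [hDP, Nat.div_eq_iff hPpos]
      constructor <;> omega
    rw [h5, card_eq_one] at hUc
    obtain ⟨u, rfl⟩ := hUc
    rw [sum_singleton] at hhd
    have hu := hUs (mem_singleton_self u)
    rw [mem_Ico] at hu
    have h6 : h ∣ D * u := (Nat.dvd_add_right h4).1 hhd
    have h7 : h ∣ u := hcopD.symm.dvd_of_dvd_mul_left h6
    have h8 := Nat.le_of_dvd (by omega) h7
    omega
  · -- D
    have he1 : e = c + 1 := by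
      by_contra hne
      have h5 : p ^ (c + 2) ∣ P * h := by
        rw [← h1, hm]
        exact Dvd.dvd.mul_right (pow_dvd_pow p (by omega)) m
      have h6 : P * p ∣ P * h := by rw [hPdef, ← pow_succ]; exact h5
      have h7 := Nat.dvd_of_mul_dvd_mul_left hPpos h6
      exact ((Nat.Prime.coprime_iff_not_dvd hp).1 hcop) h7
    have hDP : D = P := by rw [hDdef, he1]
    have hmh : m = h := by
      have : P * m = P * h := by rw [← h1, hm, hDP]
      exact Nat.eq_of_mul_eq_mul_left hPpos this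
    have h5 : k / D + 2 = m := by
      have h6 : n = P * m := by rw [hm, hDP]
      rw [hDP] at hkdm hkmod hkmod0 ⊢
      have h7 : P * (k / P) < P * (m - 1) := by
        obtain ⟨m', rfl⟩ : ∃ m', m = m' + 1 := ⟨m - 1, by omega⟩
        have : P * (m' + 1) = P * m' + P := by ring
        rw [Nat.add_sub_cancel]
        omega
      have h8 : k / P < m - 1 := Nat.lt_of_mul_lt_mul_left h7
      have h9 : P * m < P * (k / P + 3) := by
        have : P * (k / P + 3) = P * (k / P) + 3 * P := by ring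
        omega
      have h10 : m < k / P + 3 := Nat.lt_of_mul_lt_mul_left h9
      omega
    -- complement
    have hcard : (Ico 1 m \ U).card = 1 := by
      rw [card_sdiff_of_subset hUs, hUc]; simp; omega
    obtain ⟨u, hu⟩ := card_eq_one.1 hcard
    have hum : u ∈ Ico 1 m \ U := by rw [hu]; exact mem_singleton_self u
    have hsum : (∑ i ∈ Ico 1 m, i) = u + ∑ i ∈ U, i := by
      rw [← sum_sdiff hUs, hu, sum_singleton]
    rw [mem_sdiff, mem_Ico] at hum
    have h6 := hσh.1 h4
    rw [hsum] at h6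
    have h7 : v + D * (u + ∑ i ∈ U, i) = (v + D * ∑ i ∈ U, i) + D * u := by ring
    rw [h7] at h6
    have h8 : h ∣ D * u := (Nat.dvd_add_right hhd).1 h6
    have h9 : h ∣ u := hcopD.symm.dvd_of_dvd_mul_left h8
    have h10 := Nat.le_of_dvd (by omega) h9
    omega

end

/-- **Criterion.** -/
theorem const_iff {n k v : ℕ} (hk : 0 < k) (hkn : k < n) :
    (∃ r, ∀ y < n, cntY n k v y = r) ↔
      ∀ p : ℕ, p.Prime → p ^ (k.factorization p + 1) ∣ n → p ^ (k.factorization p) ∣ v →
        Alt n k v p := by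
  have hn : 0 < n := by omega
  constructor
  · rintro ⟨r, hr⟩ p hp hP hv
    refine alt_of_noU hk hkn hp hP hv (const_imp hn hk r hr hp hP ?_)
    rw [hp.pow_dvd_iff_le_factorization hk.ne']; omega
  · intro h
    refine ⟨cntY n k v 0, imp_const hn hk fun p e hp he hek => ?_⟩
    refine noU_of_alt hk hkn hp he hek fun hv => h p hp ?_ hv
    refine (pow_dvd_pow p ?_).trans he
    by_contra h
    exact hek ((hp.pow_dvd_iff_le_factorization hk.ne').2 (by omega))

end Pool.Agent.Q127.OD
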