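import Pool.Agent.Q127.OD.Poly

set_option autoImplicit false

/-! Fourier analysis of the replication numbers. -/

namespace Pool.Agent.Q127.OD

open Finset Polynomial

/-- Number of `(k-1)`-subsets `S` of `{1, …, n-1}` with `n ∣ ∑ S + k y + v`. -/
def cntY (n k v y : ℕ) : ℕ :=
  ((powersetCard (k - 1) (Ico 1 n)).filter (fun S => n ∣ (∑ i ∈ S, i) + k * y + v)).card

theorem sum_root {n : ℕ} (_hn : 0 < n) {ζ : ℂ} (hζ : IsPrimitiveRoot ζ n) (s : ℕ) :
    ∑ a ∈ range n, ζ ^ (a * s) = if n ∣ s then (n : ℂ) else 0 := by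
  have h : ∀ a ∈ range n, ζ ^ (a * s) = (ζ ^ s) ^ a := fun a _ => by
    rw [← pow_mul, mul_comm]
  rw [sum_congr rfl h]
  split_ifs with hs
  · rw [(hζ.pow_eq_one_iff_dvd s).2 hs]
    simp
  · have h1 : ζ ^ s ≠ 1 := fun h1 => hs ((hζ.pow_eq_one_iff_dvd s).1 h1)
    have h2 := mul_neg_geom_sum (ζ ^ s) n
    rw [← pow_mul, mul_comm s n, pow_mul, hζ.pow_eq_one, one_pow, sub_self] at h2
    rcases mul_eq_zero.1 h2 with h3 | h3
    · exact absurd (sub_eq_zero.1 h3).symm h1
    · exact h3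

theorem cntY_eq {n : ℕ} (hn : 0 < n) {ζ : ℂ} (hζ : IsPrimitiveRoot ζ n) (k v y : ℕ) :
    (n : ℂ) * cntY n k v y
      = ∑ a ∈ range n, ζ ^ (a * (k * y + v)) * E n (k - 1) (ζ ^ a) := by
  unfold cntY E
  simp_rw [mul_sum]
  rw [sum_comm]
  have h : ∀ S ∈ powersetCard (k - 1) (Ico 1 n),
      ∑ a ∈ range n, ζ ^ (a * (k * y + v)) * (ζ ^ a) ^ (∑ i ∈ S, i)
        = if n ∣ (∑ i ∈ S, i) + k * y + v then (n : ℂ) else 0 := by
    intro S _
    rw [← sum_root hn hζ]
    refine sum_congr rfl fun a _ => ?_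
    rw [← pow_mul, ← pow_add]
    congr 1
    ring
  rw [sum_congr rfl h, ← sum_filter, sum_const, nsmul_eq_mul, mul_comm]

/-- The Fourier transform of the replication numbers. -/
noncomputable def Rh (ζ : ℂ) (n k v t : ℕ) : ℂ := ∑ y ∈ range n, ζ ^ (y * t) * cntY n k v y

theorem Rh_eq {n : ℕ} (hn : 0 < n) {ζ : ℂ} (hζ : IsPrimitiveRoot ζ n) (k v t : ℕ) :
    Rh ζ n k v t = ∑ a ∈ range n,
      if n ∣ a * k + t then ζ ^ (a * v) * E n (k - 1) (ζ ^ a) else 0 := by
  have hn0 : (n : ℂ) ≠ 0 := by exact_mod_cast hn.ne'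
  apply mul_left_cancel₀ hn0
  unfold Rh
  rw [mul_sum, mul_sum]
  have h1 : ∀ y ∈ range n, (n : ℂ) * (ζ ^ (y * t) * cntY n k v y)
      = ∑ a ∈ range n, ζ ^ (y * t) * (ζ ^ (a * (k * y + v)) * E n (k - 1) (ζ ^ a)) := by
    intro y _
    rw [mul_left_comm, cntY_eq hn hζ, mul_sum]
  rw [sum_congr rfl h1, sum_comm]
  refine sum_congr rfl fun a _ => ?_
  have h2 : ∀ y ∈ range n, ζ ^ (y * t) * (ζ ^ (a * (k * y + v)) * E n (k - 1) (ζ ^ a))
      = ζ ^ (y * (a * k + t)) * (ζ ^ (a * v) * E n (k - 1) (ζ ^ a)) := by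
    intro y _
    rw [← mul_assoc, ← mul_assoc, ← pow_add, ← pow_add]
    congr 2
    ring
  rw [sum_congr rfl h2, ← sum_mul, sum_root hn hζ]
  split_ifs <;> simp

theorem swap {n : ℕ} (hn : 0 < n) {ζ : ℂ} (hζ : IsPrimitiveRoot ζ n) (k s t : ℕ) :
    (∑ a ∈ range n, if n ∣ a * k + t then ζ ^ (a * s) else 0)
      = ∑ y ∈ range n, if n ∣ y * k + s then ζ ^ (y * t) else 0 := by
  have hn0 : (n : ℂ) ≠ 0 := by exact_mod_cast hn.ne'
  apply mul_left_cancel₀ hn0
  rw [mul_sum, mul_sum]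
  have h1 : ∀ a ∈ range n, (n : ℂ) * (if n ∣ a * k + t then ζ ^ (a * s) else 0)
      = ∑ y ∈ range n, ζ ^ (y * (a * k + t)) * ζ ^ (a * s) := by
    intro a _
    rw [← sum_mul, sum_root hn hζ]
    split_ifs <;> simp
  have h2 : ∀ y ∈ range n, (n : ℂ) * (if n ∣ y * k + s then ζ ^ (y * t) else 0)
      = ∑ a ∈ range n, ζ ^ (a * (y * k + s)) * ζ ^ (y * t) := by
    intro a _
    rw [← sum_mul, sum_root hn hζ]
    split_ifs <;> simp
  rw [sum_congr rfl h1, sum_congr rfl h2, sum_comm]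
  refine sum_congr rfl fun y _ => sum_congr rfl fun a _ => ?_
  rw [← pow_add, ← pow_add]
  congr 1
  ring

theorem key {n : ℕ} (hn : 0 < n) {ζ : ℂ} (hζ : IsPrimitiveRoot ζ n) (k v t D : ℕ)
    (hD : ∀ a, a < n → n ∣ a * k + t → D ∣ orderOf (ζ ^ a)) :
    (-1) ^ (k - 1) * Rh ζ n k v t = (-1) ^ ((k - 1) / D) *
      ∑ U ∈ powersetCard ((k - 1) / D) (Ico 1 (n / D)),
        ∑ y ∈ range n, if n ∣ y * k + (v + D * ∑ i ∈ U, i) then ζ ^ (y * t) else 0 := by
  rw [Rh_eq hn hζ, mul_sum]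
  have h1 : ∀ a ∈ range n, (-1 : ℂ) ^ (k - 1) *
      (if n ∣ a * k + t then ζ ^ (a * v) * E n (k - 1) (ζ ^ a) else 0)
      = (-1) ^ ((k - 1) / D) * ∑ U ∈ powersetCard ((k - 1) / D) (Ico 1 (n / D)),
        (if n ∣ a * k + t then ζ ^ (a * (v + D * ∑ i ∈ U, i)) else 0) := by
    intro a ha
    split_ifs with h
    · have hdn : orderOf (ζ ^ a) ∣ n := by
        apply orderOf_dvd_of_pow_eq_one
        rw [← pow_mul, mul_comm, pow_mul, hζ.pow_eq_one, one_pow]
      have h2 := E_reduce hn hdn (hD a (mem_range.1 ha) h) (IsPrimitiveRoot.orderOf (ζ ^ a)) (k - 1)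
      rw [mul_left_comm, h2, mul_left_comm]
      congr 1
      unfold E
      rw [mul_sum]
      refine sum_congr rfl fun U _ => ?_
      rw [← pow_mul, ← pow_mul, ← pow_add]
      congr 1
      ring
    · simp
  rw [sum_congr rfl h1, ← mul_sum, sum_comm]
  congr 1
  refine sum_congr rfl fun U _ => ?_
  exact swap hn hζ k _ t

theorem dvd_order {n : ℕ} (hn : 0 < n) {ζ : ℂ} (hζ : IsPrimitiveRoot ζ n) {p e a : ℕ}
    (hp : p.Prime) (ha : a ≠ 0) (h : a.factorization p + e ≤ n.factorization p) :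
    p ^ e ∣ orderOf (ζ ^ a) := by
  have ho : 0 < orderOf (ζ ^ a) := by
    apply orderOf_pos_iff.2
    rw [isOfFinOrder_iff_pow_eq_one]
    exact ⟨n, hn, by rw [← pow_mul, mul_comm, pow_mul, hζ.pow_eq_one, one_pow]⟩
  have h1 : n ∣ a * orderOf (ζ ^ a) := by
    rw [← hζ.pow_eq_one_iff_dvd, pow_mul, pow_orderOf_eq_one]
  have h2 : a * orderOf (ζ ^ a) ≠ 0 := by positivity
  have h3 := (Nat.factorization_le_iff_dvd hn.ne' h2).2 h1 p
  rw [Nat.factorization_mul ha ho.ne', Finsupp.add_apply] at h3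
  rw [hp.pow_dvd_iff_le_factorization ho.ne']
  omega

/-- No `⌊(k-1)/D⌋`-subset `U` of `{1, …, n/D-1}` has `v + D ∑ U ∈ k ℤ + n ℤ`. -/
def NoU (n k v D : ℕ) : Prop :=
  ∀ U ∈ powersetCard ((k - 1) / D) (Ico 1 (n / D)), ∀ y < n, ¬ n ∣ y * k + (v + D * ∑ i ∈ U, i)

theorem const_imp {n k v : ℕ} (hn : 0 < n) (hk : 0 < k) (r : ℕ)
    (hr : ∀ y < n, cntY n k v y = r) {p e : ℕ} (hp : p.Prime) (hpn : p ^ e ∣ n)
    (hpk : ¬ p ^ e ∣ k) : NoU n k v (p ^ e) := by
  have hζ := Complex.isPrimitiveRoot_exp n hn.ne'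
  set ζ := Complex.exp (2 * Real.pi * Complex.I / n) with hζdef
  clear_value ζ
  have hDpos : 0 < p ^ e := pow_pos hp.pos e
  obtain ⟨m, hm⟩ := hpn
  have hmpos : 0 < m := by
    rcases Nat.eq_zero_or_pos m with h | h
    · subst h; omega
    · exact h
  have hdiv : n / p ^ e = m := by rw [hm, Nat.mul_div_cancel_left _ hDpos]
  -- the frequency
  have ht : ¬ n ∣ m * k := by
    intro h
    rw [hm, mul_comm] at h
    exact hpk (Nat.dvd_of_mul_dvd_mul_left hmpos h)
  have hke : k.factorization p < e := by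
    by_contra h
    exact hpk ((hp.pow_dvd_iff_le_factorization hk.ne').2 (not_lt.1 h))
  have hnf : n.factorization p = e + m.factorization p := by
    rw [hm, Nat.factorization_mul (by positivity) hmpos.ne', Finsupp.add_apply,
      hp.factorization_pow, Finsupp.single_eq_same]
  have hord : ∀ a, a < n → n ∣ a * k + m * k → p ^ e ∣ orderOf (ζ ^ a) := by
    intro a _ h
    rw [← add_mul] at h
    have h0 : (a + m) * k ≠ 0 := by positivity
    have h1 := (Nat.factorization_le_iff_dvd hn.ne' h0).2 h p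
    rw [Nat.factorization_mul (by positivity) hk.ne', Finsupp.add_apply] at h1
    -- p^{v(m)+1} divides a+m
    have h2 : p ^ (m.factorization p + 1) ∣ a + m :=
      (hp.pow_dvd_iff_le_factorization (by positivity)).2 (by omega)
    have h3 : ¬ p ^ (m.factorization p + 1) ∣ m := by
      rw [hp.pow_dvd_iff_le_factorization hmpos.ne']; omega
    have h4 : ¬ p ^ (m.factorization p + 1) ∣ a := fun h => h3 ((Nat.dvd_add_right h).1 h2)
    have ha : a ≠ 0 := by rintro rfl; exact h4 (dvd_zero _)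
    rw [hp.pow_dvd_iff_le_factorization ha] at h4
    exact dvd_order hn hζ hp ha (by omega)
  have hkey := key hn hζ k v (m * k) (p ^ e) hord
  have hR0 : Rh ζ n k v (m * k) = 0 := by
    unfold Rh
    rw [sum_congr rfl (fun y hy => by rw [hr y (mem_range.1 hy)]), ← sum_mul, sum_root hn hζ,
      if_neg ht, zero_mul]
  rw [hR0, mul_zero] at hkey
  have hne : ((-1 : ℂ)) ^ ((k - 1) / p ^ e) ≠ 0 := pow_ne_zero _ (by norm_num)
  have hsum := (mul_eq_zero.1 hkey.symm).resolve_left hne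
  have hsum' := congrArg (fun w => ζ ^ (m * v) * w) hsum
  simp only [mul_zero] at hsum'
  rw [mul_sum] at hsum'
  have h1 : ∀ U ∈ powersetCard ((k - 1) / p ^ e) (Ico 1 (n / p ^ e)),
      ζ ^ (m * v) * (∑ y ∈ range n,
        if n ∣ y * k + (v + p ^ e * ∑ i ∈ U, i) then ζ ^ (y * (m * k)) else 0)
      = ((∑ y ∈ range n, if n ∣ y * k + (v + p ^ e * ∑ i ∈ U, i) then 1 else 0 : ℕ) : ℂ) := by
    intro U _
    rw [mul_sum]
    push_cast
    refine sum_congr rfl fun y _ => ?_
    split_ifs with h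
    · rw [← pow_add]
      have h2 : n ∣ (m * v + y * (m * k)) + n * ∑ i ∈ U, i := by
        have h3 : (m * v + y * (m * k)) + n * ∑ i ∈ U, i
            = (y * k + (v + p ^ e * ∑ i ∈ U, i)) * m := by
          rw [hm]; ring
        rw [h3]
        exact Dvd.dvd.mul_right h m
      have h4 : n ∣ m * v + y * (m * k) := (Nat.dvd_add_left (dvd_mul_right _ _)).1 h2
      exact (hζ.pow_eq_one_iff_dvd _).2 h4
    · simp
  rw [sum_congr rfl h1, ← Nat.cast_sum] at hsum'
  have h2 : (∑ U ∈ powersetCard ((k - 1) / p ^ e) (Ico 1 (n / p ^ e)),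
      ∑ y ∈ range n, if n ∣ y * k + (v + p ^ e * ∑ i ∈ U, i) then 1 else 0) = 0 := by
    exact_mod_cast hsum'
  intro U hU y hy hdvd
  have h3 := (sum_eq_zero_iff.1 h2) U hU
  have h4 := (sum_eq_zero_iff.1 h3) y (mem_range.2 hy)
  rw [if_pos hdvd] at h4
  exact one_ne_zero h4

theorem imp_const {n k v : ℕ} (hn : 0 < n) (hk : 0 < k)
    (h : ∀ p e : ℕ, p.Prime → p ^ e ∣ n → ¬ p ^ e ∣ k → NoU n k v (p ^ e)) :
    ∀ y < n, cntY n k v y = cntY n k v 0 := by
  have hζ := Complex.isPrimitiveRoot_exp n hn.ne'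
  set ζ := Complex.exp (2 * Real.pi * Complex.I / n) with hζdef
  clear_value ζ
  -- all nontrivial Fourier coefficients vanish
  have hR : ∀ t < n, t ≠ 0 → Rh ζ n k v t = 0 := by
    intro t ht ht0
    by_cases hex : ∃ a, a < n ∧ n ∣ a * k + t
    · obtain ⟨a₀, ha₀, hd₀⟩ := hex
      have hnt : ¬ n ∣ t := Nat.not_dvd_of_pos_of_lt (Nat.pos_of_ne_zero ht0) ht
      rw [Nat.dvd_iff_prime_pow_dvd_dvd] at hnt
      push Not at hnt
      obtain ⟨p, s, hp, hpn, hpt⟩ := hnt
      have hsn : s ≤ n.factorization p := (hp.pow_dvd_iff_le_factorization hn.ne').1 hpn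
      have hval : ∀ a, n ∣ a * k + t → a ≠ 0 ∧ a.factorization p + k.factorization p < s := by
        intro a hd
        have h1 : ¬ p ^ s ∣ a * k := fun h1 => hpt ((Nat.dvd_add_right h1).1 (hpn.trans hd))
        have ha : a ≠ 0 := by rintro rfl; exact h1 (by simp)
        refine ⟨ha, ?_⟩
        rw [hp.pow_dvd_iff_le_factorization (by positivity),
          Nat.factorization_mul ha hk.ne', Finsupp.add_apply] at h1
        omega
      obtain ⟨ha0, hv0⟩ := hval a₀ hd₀
      set e := n.factorization p - a₀.factorization p with he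
      have hall : ∀ a, a < n → n ∣ a * k + t → p ^ e ∣ orderOf (ζ ^ a) := by
        intro a _ hd
        obtain ⟨ha, hv⟩ := hval a hd
        refine dvd_order hn hζ hp ha ?_
        by_contra hcon
        have hlt : a₀.factorization p < a.factorization p := by omega
        set c := a₀.factorization p + k.factorization p + 1 with hc
        have h1 : p ^ c ∣ a * k := by
          rw [hp.pow_dvd_iff_le_factorization (by positivity),
            Nat.factorization_mul ha hk.ne', Finsupp.add_apply]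
          omega
        have h2 : p ^ c ∣ n := (pow_dvd_pow p (by omega)).trans hpn
        have h3 : p ^ c ∣ t := (Nat.dvd_add_right h1).1 (h2.trans hd)
        have h4 : p ^ c ∣ a₀ * k := (Nat.dvd_add_left h3).1 (h2.trans hd₀)
        rw [hp.pow_dvd_iff_le_factorization (by positivity),
            Nat.factorization_mul ha0 hk.ne', Finsupp.add_apply] at h4
        omega
      have hkey := key hn hζ k v t (p ^ e) hall
      have hD : p ^ e ∣ n := (hp.pow_dvd_iff_le_factorization hn.ne').2 (by omega)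
      have hDk : ¬ p ^ e ∣ k := by
        rw [hp.pow_dvd_iff_le_factorization hk.ne']; omega
      have hno := h p e hp hD hDk
      have hz : (∑ U ∈ powersetCard ((k - 1) / p ^ e) (Ico 1 (n / p ^ e)),
        ∑ y ∈ range n, if n ∣ y * k + (v + p ^ e * ∑ i ∈ U, i) then ζ ^ (y * t) else 0) = 0 :=
        sum_eq_zero fun U hU => sum_eq_zero fun y hy =>
          if_neg (hno U hU y (mem_range.1 hy))
      rw [hz, mul_zero] at hkey
      exact (mul_eq_zero.1 hkey).resolve_left (pow_ne_zero _ (by norm_num))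
    · push Not at hex
      rw [Rh_eq hn hζ]
      exact sum_eq_zero fun a ha => if_neg (hex a (mem_range.1 ha))
  -- Fourier inversion
  have hinv : ∀ y₀ < n, (n : ℂ) * cntY n k v y₀ = Rh ζ n k v 0 := by
    intro y₀ hy₀
    have h1 : ∑ t ∈ range n, ζ ^ (t * (n - y₀)) * Rh ζ n k v t = Rh ζ n k v 0 := by
      rw [sum_eq_single_of_mem 0 (mem_range.2 hn)]
      · simp
      · intro t ht ht0
        rw [hR t (mem_range.1 ht) ht0, mul_zero]
    rw [← h1]
    unfold Rh
    simp_rw [mul_sum]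
    rw [sum_comm]
    have h2 : ∀ y ∈ range n, ∑ t ∈ range n, ζ ^ (t * (n - y₀)) * (ζ ^ (y * t) * cntY n k v y)
        = if y = y₀ then (n : ℂ) * cntY n k v y else 0 := by
      intro y hy
      rw [mem_range] at hy
      have h3 : ∀ t ∈ range n, ζ ^ (t * (n - y₀)) * (ζ ^ (y * t) * (cntY n k v y : ℂ))
          = ζ ^ (t * (y + (n - y₀))) * cntY n k v y := by
        intro t _
        rw [← mul_assoc, ← pow_add]
        congr 2
        ring
      rw [sum_congr rfl h3, ← sum_mul, sum_root hn hζ]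
      by_cases hyy : y = y₀
      · rw [if_pos hyy, if_pos]
        have : y + (n - y₀) = n := by omega
        rw [this]
      · rw [if_neg hyy, if_neg, zero_mul]
        intro hd
        obtain ⟨c, hc⟩ := hd
        have hc1 : y + (n - y₀) < n * 2 := by omega
        have hc2 : c < 2 := by
          by_contra h
          have : n * 2 ≤ n * c := Nat.mul_le_mul_left n (by omega)
          omega
        interval_cases c <;> omega
    rw [sum_congr rfl h2, sum_ite_eq' (range n) y₀, if_pos (mem_range.2 hy₀)]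
  intro y hy
  have h1 := (hinv y hy).trans (hinv 0 hn).symm
  have hn0 : (n : ℂ) ≠ 0 := by exact_mod_cast hn.ne'
  exact_mod_cast mul_left_cancel₀ hn0 h1

end Pool.Agent.Q127.OD
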