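import Mathlib

set_option autoImplicit false

/-! Power sums over subsets of `{1, …, N-1}` at roots of unity. -/

namespace Pool.Agent.Q127.OD

open Finset Polynomial

/-- `E N j z = ∑ z ^ (∑ S)`, over the `j`-subsets `S` of `{1, …, N-1}`. -/
noncomputable def E (N j : ℕ) (z : ℂ) : ℂ :=
  ∑ S ∈ powersetCard j (Ico 1 N), z ^ (∑ i ∈ S, i)

/-- `Q N z = ∏_{1 ≤ i < N} (1 - z^i Y)`. -/
noncomputable def Q (N : ℕ) (z : ℂ) : ℂ[X] := ∏ i ∈ Ico 1 N, (1 - C (z ^ i) * X)

theorem coeff_Q (N j : ℕ) (z : ℂ) : (Q N z).coeff j = (-1) ^ j * E N j z := by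
  unfold Q E
  have h1 : ∀ i ∈ Ico 1 N, (1 - C (z ^ i) * X : ℂ[X]) = 1 + C (-(z ^ i)) * X := by
    intro i _
    rw [C_neg]; ring
  rw [prod_congr rfl h1, prod_one_add, finset_sum_coeff]
  have h2 : ∀ t ∈ (Ico 1 N).powerset,
      (∏ i ∈ t, (C (-(z ^ i)) * X : ℂ[X])).coeff j
        = if t.card = j then (-1) ^ j * z ^ (∑ i ∈ t, i) else 0 := by
    intro t _
    rw [prod_mul_distrib, prod_const, ← map_prod, coeff_C_mul, coeff_X_pow]
    have : ∏ i ∈ t, -(z ^ i) = (-1) ^ t.card * z ^ (∑ i ∈ t, i) := by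
      rw [← prod_pow_eq_pow_sum, ← prod_const, ← prod_mul_distrib]
      exact prod_congr rfl fun i _ => by ring
    rw [this]
    by_cases h : t.card = j
    · rw [if_pos h, if_pos h.symm, h, mul_one]
    · rw [if_neg h, if_neg (fun h' => h h'.symm), mul_zero]
  rw [sum_congr rfl h2, ← sum_filter, mul_sum]
  refine sum_congr ?_ fun _ _ => rfl
  ext t
  simp [mem_powersetCard]

theorem prod_prim {d : ℕ} (hd : 0 < d) {z : ℂ} (hz : IsPrimitiveRoot z d) :
    ∏ i ∈ range d, (1 - C (z ^ i) * X : ℂ[X]) = 1 - X ^ d := by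
  have hC : IsPrimitiveRoot (C z : ℂ[X]) d := hz.map_of_injective C_injective
  have h := hC.pow_sub_pow_eq_prod_sub_mul (1 : ℂ[X]) X hd
  rw [one_pow] at h
  rw [h]
  refine prod_nbij (fun i => (C z : ℂ[X]) ^ i) ?_ ?_ ?_ ?_
  · intro i _
    rw [mem_nthRootsFinset hd, ← pow_mul, mul_comm, pow_mul, hC.pow_eq_one, one_pow]
  · intro i hi j hj hij
    exact hC.pow_inj (mem_range.1 hi) (mem_range.1 hj) hij
  · have hc : (image (fun i => (C z : ℂ[X]) ^ i) (range d)).card
        = (nthRootsFinset d (1 : ℂ[X])).card := by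
      rw [hC.card_nthRootsFinset, card_image_of_injOn, card_range]
      intro i hi j hj hij
      exact hC.pow_inj (mem_range.1 hi) (mem_range.1 hj) hij
    have hsub : image (fun i => (C z : ℂ[X]) ^ i) (range d) ⊆ nthRootsFinset d (1 : ℂ[X]) := by
      intro x hx
      obtain ⟨i, _, rfl⟩ := mem_image.1 hx
      rw [mem_nthRootsFinset hd, ← pow_mul, mul_comm, pow_mul, hC.pow_eq_one, one_pow]
    have heq := eq_of_subset_of_card_le hsub hc.ge
    intro x hx
    rw [mem_coe, ← heq] at hx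
    obtain ⟨i, hi, rfl⟩ := mem_image.1 hx
    exact ⟨i, hi, rfl⟩
  · intro i _
    rw [C_pow]

theorem prod_periodic {d : ℕ} (hd : 0 < d) {z : ℂ} (hz : IsPrimitiveRoot z d) (q : ℕ) :
    ∏ i ∈ range (d * q), (1 - C (z ^ i) * X : ℂ[X]) = (1 - X ^ d) ^ q := by
  induction q with
  | zero => simp
  | succ q ih =>
    rw [Nat.mul_succ, prod_range_add, ih, pow_succ]
    congr 1
    rw [← prod_prim hd hz]
    refine prod_congr rfl fun i _ => ?_
    rw [pow_add, pow_mul, hz.pow_eq_one, one_pow, one_mul]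

theorem one_sub_mul_Q {N : ℕ} (hN : 0 < N) (z : ℂ) :
    (1 - X) * Q N z = ∏ i ∈ range N, (1 - C (z ^ i) * X : ℂ[X]) := by
  unfold Q
  rw [range_eq_Ico, prod_eq_prod_Ico_succ_bot hN]
  simp

theorem Q_eq {n d D : ℕ} (hn : 0 < n) (hdn : d ∣ n) (hDd : D ∣ d) {z : ℂ}
    (hz : IsPrimitiveRoot z d) :
    Q n z = (∑ i ∈ range D, (X : ℂ[X]) ^ i) * expand ℂ D (Q (n / D) (z ^ D)) := by
  obtain ⟨q, rfl⟩ := hdn
  obtain ⟨t, rfl⟩ := hDd
  have hD : 0 < D := by
    rcases Nat.eq_zero_or_pos D with h | h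
    · subst h; simp at hn
    · exact h
  have ht : 0 < t := by
    rcases Nat.eq_zero_or_pos t with h | h
    · subst h; simp at hn
    · exact h
  have hq : 0 < q := by
    rcases Nat.eq_zero_or_pos q with h | h
    · subst h; simp at hn
    · exact h
  have hdiv : D * t * q / D = t * q := by
    rw [mul_assoc, Nat.mul_div_cancel_left _ hD]
  rw [hdiv]
  have hz' : IsPrimitiveRoot (z ^ D) t := hz.pow (by positivity) rfl
  have h1 : (1 - X) * Q (D * t * q) z = (1 - X ^ (D * t)) ^ q := by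
    rw [one_sub_mul_Q hn, prod_periodic (by positivity) hz]
  have h2 : (1 - X) * Q (t * q) (z ^ D) = (1 - X ^ t) ^ q := by
    rw [one_sub_mul_Q (by positivity), prod_periodic ht hz']
  have h3 : (1 - X ^ D) * expand ℂ D (Q (t * q) (z ^ D)) = (1 - X ^ (D * t)) ^ q := by
    have := congrArg (expand ℂ D) h2
    simpa [pow_mul] using this
  have h4 : (1 - X : ℂ[X]) ≠ 0 := by
    intro h
    have := congrArg (fun f => Polynomial.coeff f 0) h
    simp at this
  apply mul_left_cancel₀ h4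
  rw [h1, ← h3, ← mul_assoc]
  congr 1
  have := mul_neg_geom_sum (X : ℂ[X]) D
  rw [← this]

theorem coeff_geom_mul {D : ℕ} (hD : 0 < D) (f : ℂ[X]) (j : ℕ) :
    ((∑ i ∈ range D, (X : ℂ[X]) ^ i) * expand ℂ D f).coeff j = f.coeff (j / D) := by
  rw [sum_mul, finset_sum_coeff]
  have h : ∀ i ∈ range D, ((X : ℂ[X]) ^ i * expand ℂ D f).coeff j
      = if i = j % D then f.coeff (j / D) else 0 := by
    intro i hi
    rw [mem_range] at hi
    rw [coeff_X_pow_mul']
    by_cases hij : i ≤ j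
    · rw [if_pos hij, coeff_expand hD]
      by_cases h : i = j % D
      · have h5 : j - i = D * (j / D) := by
          have := Nat.div_add_mod j D
          omega
        rw [if_pos h, if_pos ⟨j / D, h5⟩, h5, Nat.mul_div_cancel_left _ hD]
      · rw [if_neg h, if_neg]
        rintro ⟨c, hc⟩
        apply h
        have h6 : j = i + D * c := by omega
        rw [h6, Nat.add_mul_mod_self_left, Nat.mod_eq_of_lt hi]
    · rw [if_neg hij, if_neg]
      rintro rfl
      exact hij (Nat.mod_le _ _)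
  rw [sum_congr rfl h, sum_ite_eq', if_pos (mem_range.2 (Nat.mod_lt _ hD))]

/-- **Block reduction.** -/
theorem E_reduce {n d D : ℕ} (hn : 0 < n) (hdn : d ∣ n) (hDd : D ∣ d) {z : ℂ}
    (hz : IsPrimitiveRoot z d) (j : ℕ) :
    (-1) ^ j * E n j z = (-1) ^ (j / D) * E (n / D) (j / D) (z ^ D) := by
  have hD : 0 < D := Nat.pos_of_dvd_of_pos (hDd.trans hdn) hn
  rw [← coeff_Q, ← coeff_Q, Q_eq hn hdn hDd hz, coeff_geom_mul hD]

end Pool.Agent.Q127.OD
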